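import Pool.Agent.helper84.Quartic10

/-!
# Lucas sequences with parameters `(b, -1)` at index `(p - 1) / 4`

Full proof of the statement Q1 of problem MP_551acd_nt.
-/

set_option autoImplicit false

noncomputable section

namespace Pool.Agent.Results.MP_551acd_nt.LucasQuarter

open Pool.Agent.helper84.Quartic

/-- The Lucas sequence `U_n(b, -1)`: `U_0 = 0`, `U_1 = 1`, `U_{n+2} = b U_{n+1} + U_n`. -/
def lucasU (b : ℤ) : ℕ → ℤ
  | 0 => 0
  | 1 => 1
  | (n + 2) => b * lucasU b (n + 1) + lucasU b n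

/-- The Lucas sequence `V_n(b, -1)`: `V_0 = 2`, `V_1 = b`, `V_{n+2} = b V_{n+1} + V_n`. -/
def lucasV (b : ℤ) : ℕ → ℤ
  | 0 => 2
  | 1 => b
  | (n + 2) => b * lucasV b (n + 1) + lucasV b n

/-- `m` is a nonzero integer whose odd part is congruent to `1` modulo `4`:
`m = 2 ^ a * m₀` with `m₀ ≡ 1 (mod 4)` (in particular `m₀` is odd). -/
def OddPartOne (m : ℤ) : Prop := ∃ (a : ℕ) (m₀ : ℤ), m = 2 ^ a * m₀ ∧ m₀ % 4 = 1

lemma lucasU_neg (b : ℤ) : ∀ n : ℕ, lucasU (-b) n = (-1) ^ (n + 1) * lucasU b n ∧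
    lucasU (-b) (n + 1) = (-1) ^ (n + 2) * lucasU b (n + 1) := by
  intro n
  induction n with
  | zero => simp [lucasU]
  | succ n ih =>
    refine ⟨ih.2, ?_⟩
    have h1 : lucasU (-b) (n + 1 + 1) = -b * lucasU (-b) (n + 1) + lucasU (-b) n := rfl
    have h2 : lucasU b (n + 1 + 1) = b * lucasU b (n + 1) + lucasU b n := rfl
    rw [h1, h2, ih.1, ih.2]
    ring

lemma lucasV_neg (b : ℤ) : ∀ n : ℕ, lucasV (-b) n = (-1) ^ n * lucasV b n ∧
    lucasV (-b) (n + 1) = (-1) ^ (n + 1) * lucasV b (n + 1) := by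
  intro n
  induction n with
  | zero => simp [lucasV]
  | succ n ih =>
    refine ⟨ih.2, ?_⟩
    have h1 : lucasV (-b) (n + 1 + 1) = -b * lucasV (-b) (n + 1) + lucasV (-b) n := rfl
    have h2 : lucasV b (n + 1 + 1) = b * lucasV b (n + 1) + lucasV b n := rfl
    rw [h1, h2, ih.1, ih.2]
    ring

lemma binetU {K : Type*} [CommRing K] (b : ℤ) (e e' : K) (h1 : e + e' = b) (h2 : e * e' = -1) :
    ∀ n : ℕ, (e - e') * (lucasU b n : K) = e ^ n - e' ^ n ∧
      (e - e') * (lucasU b (n + 1) : K) = e ^ (n + 1) - e' ^ (n + 1) := by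
  intro n
  induction n with
  | zero => simp [lucasU]
  | succ n ih =>
    refine ⟨ih.2, ?_⟩
    have h3 : lucasU b (n + 1 + 1) = b * lucasU b (n + 1) + lucasU b n := rfl
    rw [h3]
    push_cast
    rw [mul_add, mul_left_comm, ih.1, ih.2, ← h1]
    linear_combination (e ^ n - e' ^ n) * h2

lemma binetV {K : Type*} [CommRing K] (b : ℤ) (e e' : K) (h1 : e + e' = b) (h2 : e * e' = -1) :
    ∀ n : ℕ, (lucasV b n : K) = e ^ n + e' ^ n ∧
      (lucasV b (n + 1) : K) = e ^ (n + 1) + e' ^ (n + 1) := by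
  intro n
  induction n with
  | zero => simp [lucasV, h1]; norm_num
  | succ n ih =>
    refine ⟨ih.2, ?_⟩
    have h3 : lucasV b (n + 1 + 1) = b * lucasV b (n + 1) + lucasV b n := rfl
    rw [h3]
    push_cast
    rw [ih.1, ih.2, ← h1]
    linear_combination (e ^ n + e' ^ n) * h2

lemma OddPartOne.ne_zero {m : ℤ} (h : OddPartOne m) : m ≠ 0 := by
  obtain ⟨a, m₀, h1, h2⟩ := h
  rw [h1]
  refine mul_ne_zero (pow_ne_zero _ (by norm_num)) ?_
  omega

lemma OddPartOne.of_odd {m : ℤ} (h : OddPartOne m) (h2 : m % 2 = 1) : m % 4 = 1 := by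
  obtain ⟨a, m₀, h1, h3⟩ := h
  rcases Nat.eq_zero_or_pos a with h4 | h4
  · rw [h4, pow_zero, one_mul] at h1; omega
  · obtain ⟨j, rfl⟩ : ∃ j, a = j + 1 := ⟨a - 1, by omega⟩
    have : m = 2 * (2 ^ j * m₀) := by rw [h1]; ring
    omega

lemma OddPartOne.of_two {m : ℤ} (h : OddPartOne m) (h2 : m % 4 = 2) : m % 8 = 2 := by
  obtain ⟨a, m₀, h1, h3⟩ := h
  rcases (show a = 0 ∨ a = 1 ∨ 2 ≤ a by omega) with h4 | h4 | h4
  · rw [h4, pow_zero, one_mul] at h1; omega
  · rw [h4, pow_one] at h1; omega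
  · obtain ⟨j, rfl⟩ : ∃ j, a = j + 2 := ⟨a - 2, by omega⟩
    have : m = 4 * (2 ^ j * m₀) := by rw [h1]; ring
    omega

section main

variable {p : ℕ} [hpf : Fact p.Prime] {b c d x y : ℤ}

omit hpf in
lemma mod_eight (hp : p % 4 = 1) (hcd : (p : ℤ) = c ^ 2 + d ^ 2) (hc : c % 4 = 1) :
    (p % 8 = 1 ∧ d % 4 = 0) ∨ (p % 8 = 5 ∧ d % 4 = 2) := by
  obtain ⟨m, hm⟩ := sq_odd (a := c) (by omega)
  rw [hm] at hcd
  rcases Int.even_or_odd' d with ⟨k, hk | hk⟩
  · rw [hk] at hcd ⊢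
    rcases Int.even_or_odd' k with ⟨l, hl | hl⟩
    · left
      have : (2 * k) ^ 2 = 8 * (2 * l ^ 2) := by rw [hl]; ring
      rw [this] at hcd; omega
    · right
      have : (2 * k) ^ 2 = 8 * (2 * (l ^ 2 + l)) + 4 := by rw [hl]; ring
      rw [this] at hcd; omega
  · exfalso
    obtain ⟨n, hn⟩ := sq_odd (a := d) (by omega)
    rw [hn] at hcd; omega

omit hpf in
lemma mod_eight' (hp : p % 4 = 1) (hxy : (p : ℤ) = x ^ 2 + (b ^ 2 + 4) * y ^ 2) (hb : b % 2 = 1) :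
    (x % 2 = 1 ∧ y % 4 = 0 ∧ p % 8 = 1) ∨ (x % 2 = 1 ∧ y % 4 = 2 ∧ p % 8 = 5) ∨
    (y % 2 = 1 ∧ x % 4 = 2 ∧ p % 8 = 1) ∨ (y % 2 = 1 ∧ x % 4 = 0 ∧ p % 8 = 5) := by
  obtain ⟨m, hm⟩ := sq_odd hb
  rw [hm] at hxy
  rcases Int.emod_two_eq_zero_or_one x with h1 | h1 <;>
  rcases Int.emod_two_eq_zero_or_one y with h2 | h2
  · exfalso
    obtain ⟨u, hu⟩ : ∃ u, x = 2 * u := ⟨x / 2, by omega⟩
    obtain ⟨v, hv⟩ : ∃ v, y = 2 * v := ⟨y / 2, by omega⟩
    rw [hu, hv] at hxy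
    have : (2 * u) ^ 2 + (8 * m + 1 + 4) * (2 * v) ^ 2 = 4 * (u ^ 2 + (8 * m + 5) * v ^ 2) := by ring
    rw [this] at hxy; omega
  · obtain ⟨n, hn⟩ := sq_odd h2
    obtain ⟨u, hu⟩ : ∃ u, x = 2 * u := ⟨x / 2, by omega⟩
    rw [hn] at hxy
    have e1 : (8 * m + 1 + 4) * (8 * n + 1) = 8 * (m + 5 * n + 8 * m * n) + 5 := by ring
    rw [e1] at hxy
    rcases Int.even_or_odd' u with ⟨l, hl | hl⟩
    · right; right; right
      have : x ^ 2 = 8 * (2 * l ^ 2) := by rw [hu, hl]; ring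
      rw [this] at hxy; omega
    · right; right; left
      have : x ^ 2 = 8 * (2 * (l ^ 2 + l)) + 4 := by rw [hu, hl]; ring
      rw [this] at hxy; omega
  · obtain ⟨n, hn⟩ := sq_odd h1
    obtain ⟨v, hv⟩ : ∃ v, y = 2 * v := ⟨y / 2, by omega⟩
    rw [hn] at hxy
    rcases Int.even_or_odd' v with ⟨l, hl | hl⟩
    · left
      have : (8 * m + 1 + 4) * y ^ 2 = 8 * (2 * (8 * m + 5) * l ^ 2) := by rw [hv, hl]; ring
      rw [this] at hxy; omega
    · right; left
      have : (8 * m + 1 + 4) * y ^ 2 = 8 * (2 * (8 * m + 5) * (l ^ 2 + l) + 4 * m + 2) + 4 := by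
        rw [hv, hl]; ring
      rw [this] at hxy; omega
  · exfalso
    obtain ⟨n, hn⟩ := sq_odd h1
    obtain ⟨k, hk⟩ := sq_odd h2
    rw [hn, hk] at hxy
    have e1 : (8 * m + 1 + 4) * (8 * k + 1) = 8 * (m + 5 * k + 8 * m * k) + 5 := by ring
    rw [e1] at hxy; omega

/-- The algebra behind the passage from `ε ^ n` to `U_n`, `V_n`. -/
lemma setup (hcd : (p : ℤ) = c ^ 2 + d ^ 2) (hxy : (p : ℤ) = x ^ 2 + (b ^ 2 + 4) * y ^ 2)
    (hc0 : (c : ZMod p) ≠ 0) (hd0 : (d : ZMod p) ≠ 0) (hx0 : (x : ZMod p) ≠ 0)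
    (hy0 : (y : ZMod p) ≠ 0) (h2 : (2 : ZMod p) ≠ 0) (n : ℕ) {A : ZMod p} (hA : A ≠ 0)
    (hpow : (((b : ZMod p) + (c : ZMod p) * x / ((d : ZMod p) * y)) / 2) ^ n = A) :
    (lucasU b n : ZMod p) = (A - (-1) ^ n / A) * ((d : ZMod p) * y / (c * x)) ∧
    (lucasV b n : ZMod p) = A + (-1) ^ n / A := by
  set s : ZMod p := (c : ZMod p) * x / ((d : ZMod p) * y) with hs
  have h1' : (c : ZMod p) ^ 2 = - (d : ZMod p) ^ 2 := by
    have := congrArg (Int.cast : ℤ → ZMod p) hcd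
    push_cast at this
    rw [ZMod.natCast_self] at this
    linear_combination -this
  have h2' : (x : ZMod p) ^ 2 = - ((b : ZMod p) ^ 2 + 4) * (y : ZMod p) ^ 2 := by
    have := congrArg (Int.cast : ℤ → ZMod p) hxy
    push_cast at this
    rw [ZMod.natCast_self] at this
    linear_combination -this
  have hs2 : s ^ 2 = (b : ZMod p) ^ 2 + 4 := by
    rw [hs, div_pow, mul_pow, mul_pow, h1', h2']
    field_simp
  have hs0 : s ≠ 0 := by
    rw [hs]; exact div_ne_zero (mul_ne_zero hc0 hx0) (mul_ne_zero hd0 hy0)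
  have e1 : ((b : ZMod p) + s) / 2 + ((b : ZMod p) - s) / 2 = b := by
    field_simp; ring
  have e2 : (((b : ZMod p) + s) / 2) * (((b : ZMod p) - s) / 2) = -1 := by
    have h4 : (4 : ZMod p) ≠ 0 := by
      have : (4 : ZMod p) = 2 * 2 := by norm_num
      rw [this]; exact mul_ne_zero h2 h2
    have : (((b : ZMod p) + s) / 2) * (((b : ZMod p) - s) / 2) = ((b : ZMod p) ^ 2 - s ^ 2) / 4 := by
      field_simp; ring
    rw [this, hs2]; field_simp; ring
  have e3 : ((b : ZMod p) + s) / 2 - ((b : ZMod p) - s) / 2 = s := by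
    field_simp; ring
  have hU := (binetU b _ _ e1 e2 n).1
  have hV := (binetV b _ _ e1 e2 n).1
  have e4 : (((b : ZMod p) - s) / 2) ^ n = (-1) ^ n / A := by
    have : (((b : ZMod p) + s) / 2) ^ n * (((b : ZMod p) - s) / 2) ^ n = (-1) ^ n := by
      rw [← mul_pow, e2]
    rw [hpow] at this
    field_simp
    linear_combination this
  rw [e3, hpow, e4] at hU
  rw [hpow, e4] at hV
  refine ⟨?_, hV⟩
  have hsinv : (d : ZMod p) * y / (c * x) = s⁻¹ := by rw [hs, inv_div]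
  rw [hsinv, ← hU]
  field_simp

/-- The case `x` even and `b ≡ 1 (mod 4)`. -/
lemma caseB (hp : p % 4 = 1) (hcd : (p : ℤ) = c ^ 2 + d ^ 2)
    (hxy : (p : ℤ) = x ^ 2 + (b ^ 2 + 4) * y ^ 2) (hb : b % 4 = 1) (hc : c % 4 = 1)
    (hd : OddPartOne d) (hx : OddPartOne x) (hy : OddPartOne y)
    (hc0 : (c : ZMod p) ≠ 0) (hd0 : (d : ZMod p) ≠ 0) (hx0 : (x : ZMod p) ≠ 0)
    (hy0 : (y : ZMod p) ≠ 0) (h2 : (2 : ZMod p) ≠ 0) :
    (x % 4 = 2 → (lucasU b ((p - 1) / 4) : ZMod p) =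
      (if b % 8 = 1 then 1 else -1) * ((-1) ^ (d / 4) * (2 * y / x))) ∧
    (x % 4 = 0 → (lucasV b ((p - 1) / 4) : ZMod p) =
      (if b % 8 = 1 then -1 else 1) * (2 * (-1) ^ (x / 4) * (d / c))) := by
  have h1' : (c : ZMod p) ^ 2 = - (d : ZMod p) ^ 2 := by
    have := congrArg (Int.cast : ℤ → ZMod p) hcd
    push_cast at this
    rw [ZMod.natCast_self] at this
    linear_combination -this
  have hcdm := mod_eight hp hcd hc
  have hxym := mod_eight' hp hxy (by omega)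
  have hsign : ∀ k : ℤ, ((-1 : ZMod p) ^ k) = 1 ∨ ((-1 : ZMod p) ^ k) = -1 := by
    intro k
    rcases Int.even_or_odd' k with ⟨m, hm | hm⟩
    · left; rw [hm, zpow_mul]; simp
    · right; rw [hm, zpow_add₀ (by norm_num), zpow_mul]; simp
  have hCne : (c : ZMod p) / d ≠ 0 := div_ne_zero hc0 hd0
  constructor
  · intro hx4
    have hy1 : y % 4 = 1 := hy.of_odd (by omega)
    have hd4 : d % 4 = 0 := by omega
    have hpow := powB hp hcd hxy hb hc hy1 hd0 (Or.inl ⟨hd4, hx.of_two hx4⟩)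
    rw [if_pos hd4] at hpow
    have hn : ((-1 : ZMod p)) ^ ((p - 1) / 4) = 1 := by
      have : Even ((p - 1) / 4) := by rw [Nat.even_iff]; omega
      exact this.neg_one_pow
    rcases hsign (d / 4) with hs | hs <;> rw [hs] at hpow ⊢ <;> split_ifs at hpow ⊢ with h8
    all_goals
      have hst := (setup hcd hxy hc0 hd0 hx0 hy0 h2 _ (by simpa using hCne) hpow).1
      rw [hst, hn]
      field_simp
      first
        | linear_combination h1'
        | linear_combination -h1'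
  · intro hx4
    have hy1 : y % 4 = 1 := hy.of_odd (by omega)
    have hd4 : d % 4 = 2 := by omega
    have hpow := powB hp hcd hxy hb hc hy1 hd0 (Or.inr ⟨hd.of_two hd4, hx4⟩)
    rw [if_neg (by omega)] at hpow
    have hn : ((-1 : ZMod p)) ^ ((p - 1) / 4) = -1 := by
      have : Odd ((p - 1) / 4) := by rw [Nat.odd_iff]; omega
      exact this.neg_one_pow
    rcases hsign (x / 4) with hs | hs <;> rw [hs] at hpow ⊢ <;> split_ifs at hpow ⊢ with h8
    all_goals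
      have hst := (setup hcd hxy hc0 hd0 hx0 hy0 h2 _ (by simpa using hCne) hpow).2
      rw [hst, hn]
      field_simp
      first
        | linear_combination h1'
        | linear_combination -h1'

end main

/-- **Main theorem.** The conjecture Q1 holds: for a prime `p ≡ 1 (mod 4)`, an odd integer `b` and
integers `c, d, x, y` with `p = c² + d² = x² + (b² + 4) y²`, `p ≠ b² + 4`, `c ≡ 1 (mod 4)` and the
odd parts of `d`, `x`, `y` all congruent to `1` modulo `4`, the prescribed congruences for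
`U_{(p-1)/4}(b, -1)` (when `4 ∤ x y`) and `V_{(p-1)/4}(b, -1)` (when `4 ∣ x y`) hold modulo `p`. -/
theorem result (p : ℕ) [Fact p.Prime] (hp : p % 4 = 1) (b c d x y : ℤ) (hb : Odd b)
    (hcd : (p : ℤ) = c ^ 2 + d ^ 2) (hxy : (p : ℤ) = x ^ 2 + (b ^ 2 + 4) * y ^ 2)
    (_hne : (p : ℤ) ≠ b ^ 2 + 4) (hc : c % 4 = 1)
    (hd : OddPartOne d) (hx : OddPartOne x) (hy : OddPartOne y) :
    -- (i) `4 ∤ x y`
    (¬ (4 : ℤ) ∣ x * y →
      ((2 ∣ x ∧ ¬ 4 ∣ x) ∨ (2 ∣ y ∧ ¬ 4 ∣ y)) ∧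
      ((2 ∣ x ∧ ¬ 4 ∣ x) → 4 ∣ d ∧
        ((b % 8 = 1 ∨ b % 8 = 3) → (lucasU b ((p - 1) / 4) : ZMod p) =
          (-1) ^ (d / 4) * (2 * (y : ZMod p) / (x : ZMod p))) ∧
        ((b % 8 = 5 ∨ b % 8 = 7) → (lucasU b ((p - 1) / 4) : ZMod p) =
          -((-1) ^ (d / 4) * (2 * (y : ZMod p) / (x : ZMod p))))) ∧
      ((2 ∣ y ∧ ¬ 4 ∣ y) → (lucasU b ((p - 1) / 4) : ZMod p) =
          2 * (d : ZMod p) * (y : ZMod p) / ((c : ZMod p) * (x : ZMod p)))) ∧
    -- (ii) `4 ∣ x y`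
    ((4 : ℤ) ∣ x * y →
      (4 ∣ x ∨ 4 ∣ y) ∧
      (4 ∣ y → 4 ∣ d + y ∧ (lucasV b ((p - 1) / 4) : ZMod p) = 2 * (-1) ^ ((d + y) / 4)) ∧
      (4 ∣ x →
        ((b % 8 = 1 ∨ b % 8 = 3) → (lucasV b ((p - 1) / 4) : ZMod p) =
          -2 * (-1) ^ (x / 4) * ((d : ZMod p) / (c : ZMod p))) ∧
        ((b % 8 = 5 ∨ b % 8 = 7) → (lucasV b ((p - 1) / 4) : ZMod p) =
          2 * (-1) ^ (x / 4) * ((d : ZMod p) / (c : ZMod p))))) := by
  have hb2 : b % 2 = 1 := Int.odd_iff.1 hb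
  have hcd2 := mod_eight hp hcd hc
  have hxy2 := mod_eight' hp hxy hb2
  have hdne := hd.ne_zero
  have hxne := hx.ne_zero
  have hyne := hy.ne_zero
  have hcne : c ≠ 0 := by omega
  have hc0 : (c : ZMod p) ≠ 0 := cast_ne_zero hcne (by rw [hcd]; nlinarith [sq_nonneg d])
  have hd0 : (d : ZMod p) ≠ 0 := cast_ne_zero hdne (by rw [hcd]; nlinarith [sq_nonneg c])
  have hx0 : (x : ZMod p) ≠ 0 := cast_ne_zero hxne (by
    rw [hxy]; nlinarith [sq_nonneg (b * y), sq_nonneg y])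
  have hy0 : (y : ZMod p) ≠ 0 := cast_ne_zero hyne (by
    rw [hxy]; nlinarith [sq_nonneg (b * y), sq_nonneg y, sq_nonneg x])
  have h2p : (2 : ZMod p) ≠ 0 := by
    intro h0
    have h3 : ((2 : ℕ) : ZMod p) = 0 := by exact_mod_cast h0
    rw [ZMod.natCast_eq_zero_iff] at h3
    have := Nat.le_of_dvd (by norm_num) h3
    have := (Fact.out : p.Prime).two_le
    omega
  have hsign : ∀ k : ℤ, ((-1 : ZMod p) ^ k) = 1 ∨ ((-1 : ZMod p) ^ k) = -1 := by
    intro k
    rcases Int.even_or_odd' k with ⟨m, hm | hm⟩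
    · left; rw [hm, zpow_mul]; simp
    · right; rw [hm, zpow_add₀ (by norm_num), zpow_mul]; simp
  have h4xy : ((4 : ℤ) ∣ x * y) ↔ (x % 4 = 0 ∨ y % 4 = 0) := by
    constructor
    · intro h
      obtain ⟨k, hk⟩ := h
      rcases hxy2 with h1 | ⟨h1, h3, _⟩ | ⟨h1, h3, _⟩ | h1
      · exact Or.inr h1.2.1
      · exfalso
        obtain ⟨u, hu⟩ : ∃ u, x = 2 * u + 1 := ⟨x / 2, by omega⟩
        obtain ⟨v, hv⟩ : ∃ v, y = 4 * v + 2 := ⟨y / 4, by omega⟩
        rw [hu, hv] at hk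
        have : (2 * u + 1) * (4 * v + 2) = 4 * (2 * u * v + u + v) + 2 := by ring
        omega
      · exfalso
        obtain ⟨u, hu⟩ : ∃ u, y = 2 * u + 1 := ⟨y / 2, by omega⟩
        obtain ⟨v, hv⟩ : ∃ v, x = 4 * v + 2 := ⟨x / 4, by omega⟩
        rw [hu, hv] at hk
        have : (4 * v + 2) * (2 * u + 1) = 4 * (2 * u * v + u + v) + 2 := by ring
        omega
      · exact Or.inl h1.2.1
    · rintro (h | h)
      · exact (Int.dvd_of_emod_eq_zero h).mul_right y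
      · exact (Int.dvd_of_emod_eq_zero h).mul_left x
  -- the two families of formulas for `x` even
  have hB : (y % 2 = 1) →
      (x % 4 = 2 → (lucasU b ((p - 1) / 4) : ZMod p) =
        (if b % 8 = 1 ∨ b % 8 = 3 then 1 else -1) * ((-1) ^ (d / 4) * (2 * y / x))) ∧
      (x % 4 = 0 → (lucasV b ((p - 1) / 4) : ZMod p) =
        (if b % 8 = 1 ∨ b % 8 = 3 then -1 else 1) * (2 * (-1) ^ (x / 4) * (d / c))) := by
    intro hyo
    rcases (show b % 4 = 1 ∨ b % 4 = 3 by omega) with hb4 | hb4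
    · have h := caseB hp hcd hxy hb4 hc hd hx hy hc0 hd0 hx0 hy0 h2p
      have e1 : (b % 8 = 1) ↔ (b % 8 = 1 ∨ b % 8 = 3) := by omega
      constructor
      · intro h3
        rw [h.1 h3]
        simp only [← e1]
      · intro h3
        rw [h.2 h3]
        simp only [← e1]
    · have hxy' : (p : ℤ) = x ^ 2 + ((-b) ^ 2 + 4) * y ^ 2 := by rw [hxy]; ring
      have h := caseB (b := -b) hp hcd hxy' (by omega) hc hd hx hy hc0 hd0 hx0 hy0 h2p
      have e1 : ((-b) % 8 = 1) ↔ ¬ (b % 8 = 1 ∨ b % 8 = 3) := by omega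
      constructor
      · intro h3
        have h4 := h.1 h3
        rw [(lucasU_neg b _).1] at h4
        have hn : Even ((p - 1) / 4) := by rw [Nat.even_iff]; omega
        have h5 : (-1 : ℤ) ^ ((p - 1) / 4 + 1) = -1 := by
          rw [pow_succ, hn.neg_one_pow]; norm_num
        rw [h5] at h4
        push_cast at h4
        by_cases h6 : b % 8 = 1 ∨ b % 8 = 3
        · rw [if_neg (by rw [e1]; exact not_not.2 h6)] at h4
          rw [if_pos h6]
          linear_combination -h4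
        · rw [if_pos (e1.2 h6)] at h4
          rw [if_neg h6]
          linear_combination -h4
      · intro h3
        have h4 := h.2 h3
        rw [(lucasV_neg b _).1] at h4
        have hn : Odd ((p - 1) / 4) := by rw [Nat.odd_iff]; omega
        rw [hn.neg_one_pow] at h4
        push_cast at h4
        by_cases h6 : b % 8 = 1 ∨ b % 8 = 3
        · rw [if_neg (by rw [e1]; exact not_not.2 h6)] at h4
          rw [if_pos h6]
          linear_combination -h4
        · rw [if_pos (e1.2 h6)] at h4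
          rw [if_neg h6]
          linear_combination -h4
  constructor
  · intro hn4
    rw [h4xy] at hn4
    refine ⟨by omega, ?_, ?_⟩
    · rintro ⟨hx1, hx2⟩
      have hx4 : x % 4 = 2 := by omega
      have hU := (hB (by omega)).1 hx4
      refine ⟨by omega, ?_, ?_⟩
      · intro h8
        rw [hU, if_pos h8, one_mul]
      · intro h8
        rw [hU, if_neg (by omega)]; ring
    · rintro ⟨hy1, hy2⟩
      have hy4 : y % 4 = 2 := by omega
      have hd4 : d % 4 = 2 := by omega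
      have hpow := (powA hp hcd hxy hb2 hc (hx.of_odd (by omega)) hyne hd0 (by omega)
        (by omega)).1 hy4 (hd.of_two hd4) (hy.of_two hy4)
      have hst := (setup hcd hxy hc0 hd0 hx0 hy0 h2p _ one_ne_zero hpow).1
      have hn : Odd ((p - 1) / 4) := by rw [Nat.odd_iff]; omega
      rw [hst, hn.neg_one_pow]
      field_simp
      ring
  · intro h4
    rw [h4xy] at h4
    refine ⟨by omega, ?_, ?_⟩
    · intro hy4'
      have hy4 : y % 4 = 0 := by omega
      have hpow := (powA hp hcd hxy hb2 hc (hx.of_odd (by omega)) hyne hd0 (by omega)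
        (by omega)).2 hy4
      refine ⟨by omega, ?_⟩
      have hne1 : ((-1 : ZMod p) ^ ((d + y) / 4)) ≠ 0 := zpow_ne_zero _ (by norm_num)
      have hst := (setup hcd hxy hc0 hd0 hx0 hy0 h2p _ hne1 hpow.2).2
      have hn : Even ((p - 1) / 4) := by rw [Nat.even_iff]; omega
      rw [hst, hn.neg_one_pow]
      rcases hsign ((d + y) / 4) with hs | hs <;> rw [hs] <;> norm_num
    · intro hx4'
      have hx4 : x % 4 = 0 := by omega
      have hV := (hB (by omega)).2 hx4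
      refine ⟨?_, ?_⟩
      · intro h8
        rw [hV, if_pos h8]; ring
      · intro h8
        rw [hV, if_neg (by omega)]; ring

end Pool.Agent.Results.MP_551acd_nt.LucasQuarter
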